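import Pool.Agent.H53.MC.Targets

set_option autoImplicit false

namespace Pool.Agent.H79.MSC

open Finset Pool.Agent.H53.MC

theorem pf_LK : T_LK := by
  classical
  intro n M k e r w m q 𝒦 B F hB hK T hT hTr hTB
  have h1 : ∀ p ∈ Ker e r w B, ∃ j, Ins e p (F j) := by
    intro p hp
    obtain ⟨c, hc, hI⟩ := hp.2 T hTr hTB
    obtain ⟨j, hj⟩ := hT c hc
    exact ⟨j, by rw [hj]; exact hI⟩
  refine ⟨h1, ?_⟩
  by_contra hcon
  apply hB
  refine ⟨Ker e r w B, hK, h1, ?_⟩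
  intro T' hT' hq
  by_contra h2
  push Not at h2
  apply hcon
  refine ⟨T', hT', hq, ?_⟩
  intro x hx
  rw [Finset.mem_sdiff] at hx
  have h3 : ∃ A : Finset (Fin n), A.card < w ∧ (A, x) ∈ Ker e r w B := by
    by_contra h4
    apply hx.2
    unfold Err
    refine Finset.mem_filter.mpr ?_
    refine ⟨hx.1, ?_⟩
    intro A hA hAx
    exact h4 ⟨A, hA, hAx⟩
  obtain ⟨A, hA, hAx⟩ := h3
  obtain ⟨c, hc, hI⟩ := h2 (A, x) hAx
  exact ⟨c, hc, hI.2⟩

end Pool.Agent.H79.MSC
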